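import Pool.Agent.Helper79.TLN.StN

/-!
# Project TL, low levels (MP_3c9520_nt), module NH1: mean square bound and summability, weight at least four
-/

set_option autoImplicit false

namespace Pool.Agent.Helper60.TLN

open Pool.Agent.Helper79.TLN Pool.Agent.Helper28.LV Pool.Agent.Helper28.WK Pool.Agent.Helper14.WK Pool.Agent.Helper4.TL
open Pool.Agent.Helper14.CV (G0 Homog EqC act)
open MeasureTheory Filter AddCircle

private instance fact1 : Fact ((0 : ℝ) < 1) := ⟨one_pos⟩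

/-- Bessel's inequality for an absolutely convergent Fourier series. -/
private theorem bessel (b : ℕ → ℂ) (hb : Summable fun m => ‖b m‖) (K : ℝ) (hK : 0 ≤ K)
    (h : ∀ x : ℝ, ‖∑' m : ℕ, b m * Complex.exp (2 * Real.pi * Complex.I * m * x)‖ ≤ K) (X : ℕ) :
    ∑ m ∈ Finset.range X, ‖b m‖ ^ 2 ≤ K ^ 2 := by
  have hs : Summable fun m : ℕ => b m • (fourier (m : ℤ) : C(AddCircle (1 : ℝ), ℂ)) := by
    refine Summable.of_norm ?_
    have e : ∀ m : ℕ, ‖b m • (fourier (m : ℤ) : C(AddCircle (1 : ℝ), ℂ))‖ = ‖b m‖ := by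
      intro m
      rw [norm_smul, fourier_norm, mul_one]
    simpa only [e] using hb
  set G : C(AddCircle (1 : ℝ), ℂ) := ∑' m : ℕ, b m • (fourier (m : ℤ) : C(AddCircle (1 : ℝ), ℂ))
    with hG
  have hsum : HasSum (fun m : ℕ => b m • (fourier (m : ℤ) : C(AddCircle (1 : ℝ), ℂ))) G :=
    hs.hasSum
  -- the sup norm
  have hGn : ‖G‖ ≤ K := by
    rw [ContinuousMap.norm_le _ hK]
    intro x
    induction x using QuotientAddGroup.induction_on with
    | H t =>
      have h1 : G ((t : ℝ) : AddCircle (1 : ℝ)) =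
          ∑' m : ℕ, b m * Complex.exp (2 * Real.pi * Complex.I * m * t) := by
        have h2 := (ContinuousMap.hasSum_apply hsum ((t : ℝ) : AddCircle (1 : ℝ))).tsum_eq
        rw [← h2]
        refine tsum_congr fun m => ?_
        rw [ContinuousMap.smul_apply, fourier_coe_apply, smul_eq_mul]
        push_cast
        rw [div_one]
      have := h t
      rw [← h1] at this
      exact this
  -- in the Hilbert space
  set L := (ContinuousMap.toLp (E := ℂ) 2 (haarAddCircle (T := (1 : ℝ))) ℂ) with hL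
  have hLn : ‖L G‖ ≤ K := by
    refine (L.le_opNorm G).trans ?_
    have h1 : ‖L‖ ≤ 1 := by
      have := ContinuousMap.toLp_norm_le (E := ℂ) (p := 2) (μ := haarAddCircle (T := (1 : ℝ)))
        (𝕜 := ℂ)
      simpa [measureUnivNNReal] using this
    calc ‖L‖ * ‖G‖ ≤ 1 * K := mul_le_mul h1 hGn (norm_nonneg _) zero_le_one
      _ = K := one_mul K
  have hLs : HasSum (fun m : ℕ => b m • fourierLp (T := (1 : ℝ)) 2 (m : ℤ)) (L G) := by
    have := L.hasSum hsum
    simpa only [map_smul] using this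
  have ho := orthonormal_fourier (T := (1 : ℝ))
  have hin : ∀ j : ℕ, inner ℂ (fourierLp (T := (1 : ℝ)) 2 (j : ℤ)) (L G) = b j := by
    intro j
    have h1 := (innerSL ℂ (fourierLp (T := (1 : ℝ)) 2 (j : ℤ))).hasSum hLs
    simp only [innerSL_apply_apply, inner_smul_right] at h1
    have h2 : ∀ m : ℕ, b m * inner ℂ (fourierLp (T := (1 : ℝ)) 2 (j : ℤ))
        (fourierLp (T := (1 : ℝ)) 2 (m : ℤ)) = if m = j then b j else 0 := by
      intro m
      have h3 := orthonormal_iff_ite.1 ho (j : ℤ) (m : ℤ)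
      rw [h3]
      by_cases hm : m = j
      · subst hm
        simp
      · have : ¬ ((j : ℤ) = m) := fun h => hm (by exact_mod_cast h.symm)
        simp [this, hm]
    simp only [h2] at h1
    exact h1.unique (hasSum_ite_eq j (b j))
  have hB := (ho.comp (fun m : ℕ => (m : ℤ)) Nat.cast_injective).sum_inner_products_le
    (x := L G) (s := Finset.range X)
  simp only [Function.comp, hin] at hB
  exact hB.trans (pow_le_pow_left₀ (norm_nonneg _) hLn 2)

private theorem fz_apply {N : ℕ} {k : ℤ} (f : CuspForm (G0 N) k) {x y : ℝ} (hy : 0 < y) :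
    ∃ τ : UpperHalfPlane, τ.im = y ∧ fzK f (x + y * Complex.I) = f τ := by
  have him : (0 : ℝ) < ((x : ℂ) + y * Complex.I).im := by simpa using hy
  refine ⟨⟨(x : ℂ) + y * Complex.I, him⟩, ?_, ?_⟩
  · show ((x : ℂ) + y * Complex.I).im = y
    simp
  · unfold fzK
    rw [UpperHalfPlane.ofComplex_apply_of_im_pos him]

/-- The mean square of the coefficients. -/
private theorem mean (hK : SKA1) {N : ℕ} [NeZero N] (A : ℕ) (f : CuspForm (G0 N) (2 * A + 2)) :
    ∃ C : ℝ, 0 ≤ C ∧ ∀ X : ℕ, 1 ≤ X →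
      ∑ m ∈ Finset.range (X + 1), ‖fcK f m‖ ^ 2 ≤ C * (X : ℝ) ^ (2 * A + 2) := by
  obtain ⟨C, hC⟩ := CuspFormClass.exists_bound f
  refine ⟨Real.exp (4 * Real.pi) * |C| ^ 2, by positivity, fun X hX => ?_⟩
  have hX' : (0 : ℝ) < X := by exact_mod_cast hX
  set y : ℝ := 1 / X with hy
  have hyp : 0 < y := by positivity
  set b : ℕ → ℂ := fun m => fcK f m * Complex.exp (2 * Real.pi * Complex.I * m * (y * Complex.I))
    with hb
  have hz : 0 < (((0 : ℝ) : ℂ) + y * Complex.I).im := by simpa using hyp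
  have hbs : Summable fun m => ‖b m‖ := by
    have h1 := (hK N ‹_› _ f (((0 : ℝ) : ℂ) + y * Complex.I) hz).2.1 0
    simp only [pow_zero, div_one, Complex.ofReal_zero, zero_add] at h1
    exact h1.norm
  have hterm : ∀ (m : ℕ) (x : ℝ), fcK f m * Complex.exp (2 * Real.pi * Complex.I * m *
      (x + y * Complex.I)) = b m * Complex.exp (2 * Real.pi * Complex.I * m * x) := by
    intro m x
    rw [hb]
    simp only
    rw [mul_assoc (fcK f m), ← Complex.exp_add]
    congr 2
    ring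
  have hbound : ∀ x : ℝ, ‖∑' m : ℕ, b m * Complex.exp (2 * Real.pi * Complex.I * m * x)‖ ≤
      |C| * (X : ℝ) ^ (A + 1) := by
    intro x
    have hz' : 0 < ((x : ℂ) + y * Complex.I).im := by simpa using hyp
    have h1 := (hK N ‹_› _ f ((x : ℂ) + y * Complex.I) hz').2.2.1
    simp only [hterm] at h1
    rw [h1.tsum_eq]
    obtain ⟨τ, hτ, hfτ⟩ := fz_apply f (x := x) hyp
    rw [hfτ]
    have h2 := hC τ
    rw [hτ] at h2
    have e1 : (((2 * (A : ℤ) + 2 : ℤ) : ℝ) / 2) = ((A + 1 : ℕ) : ℝ) := by push_cast; ring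
    rw [e1, Real.rpow_natCast] at h2
    refine h2.trans ((div_le_div_of_nonneg_right (le_abs_self C) (by positivity)).trans (le_of_eq ?_))
    rw [hy, one_div, inv_pow, div_inv_eq_mul]
  have hBes := bessel b hbs (|C| * (X : ℝ) ^ (A + 1)) (by positivity) hbound (X + 1)
  have hnb : ∀ m : ℕ, ‖b m‖ = ‖fcK f m‖ * Real.exp (-(2 * Real.pi * m * y)) := by
    intro m
    rw [hb]
    simp only
    rw [norm_mul, Complex.norm_exp]
    congr 2
    have : (2 * Real.pi * Complex.I * m * (y * Complex.I) : ℂ) =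
        ((-(2 * Real.pi * m * y) : ℝ) : ℂ) := by
      have hI : Complex.I * Complex.I = -1 := Complex.I_mul_I
      push_cast
      linear_combination (2 * Real.pi * m * y) * hI
    rw [this, Complex.ofReal_re]
  have hle : ∀ m ∈ Finset.range (X + 1), ‖fcK f m‖ ^ 2 ≤ Real.exp (4 * Real.pi) * ‖b m‖ ^ 2 := by
    intro m hm
    have hmX : (m : ℝ) ≤ X := by
      have := Finset.mem_range.1 hm
      exact_mod_cast Nat.lt_succ_iff.1 this
    rw [hnb, mul_pow, ← Real.exp_nat_mul]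
    have h1 : (1 : ℝ) ≤ Real.exp (4 * Real.pi) *
        Real.exp (((2 : ℕ) : ℝ) * -(2 * Real.pi * m * y)) := by
      rw [← Real.exp_add]
      apply Real.one_le_exp
      have h2 : (m : ℝ) * y ≤ 1 := by
        rw [hy, mul_one_div]
        exact (div_le_one hX').2 hmX
      have := Real.pi_pos
      push_cast
      nlinarith
    calc ‖fcK f m‖ ^ 2 = ‖fcK f m‖ ^ 2 * 1 := (mul_one _).symm
      _ ≤ ‖fcK f m‖ ^ 2 * (Real.exp (4 * Real.pi) *
          Real.exp (((2 : ℕ) : ℝ) * -(2 * Real.pi * m * y))) :=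
          mul_le_mul_of_nonneg_left h1 (by positivity)
      _ = _ := by ring
  calc ∑ m ∈ Finset.range (X + 1), ‖fcK f m‖ ^ 2
      ≤ ∑ m ∈ Finset.range (X + 1), Real.exp (4 * Real.pi) * ‖b m‖ ^ 2 := Finset.sum_le_sum hle
    _ = Real.exp (4 * Real.pi) * ∑ m ∈ Finset.range (X + 1), ‖b m‖ ^ 2 := by
        rw [Finset.mul_sum]
    _ ≤ Real.exp (4 * Real.pi) * (|C| * (X : ℝ) ^ (A + 1)) ^ 2 :=
        mul_le_mul_of_nonneg_left hBes (Real.exp_pos _).le
    _ = _ := by ring

/-- NH1 (the same proof as Pool/Agent/Helper38/TN/M_BES.lean) -/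
theorem hNH1 : SNH1 := by
  intro hK N hN A f hA
  obtain ⟨C, hC0, hC⟩ := mean hK A f
  have hO : (fun n : ℕ => ∑ k ∈ Finset.Icc 1 n, ‖fcK f k‖) =O[atTop]
      fun n : ℕ => (n : ℝ) ^ ((A : ℝ) + 3 / 2) := by
    refine Asymptotics.IsBigO.of_bound (Real.sqrt C) ?_
    filter_upwards [eventually_ge_atTop 1] with n hn
    have hn' : (0 : ℝ) < n := by exact_mod_cast hn
    have h0 : 0 ≤ ∑ k ∈ Finset.Icc 1 n, ‖fcK f k‖ := Finset.sum_nonneg fun _ _ => norm_nonneg _
    rw [Real.norm_of_nonneg h0, Real.norm_of_nonneg (by positivity)]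
    have h1 : (∑ k ∈ Finset.Icc 1 n, ‖fcK f k‖) ^ 2 ≤ n * ∑ k ∈ Finset.Icc 1 n, ‖fcK f k‖ ^ 2 := by
      have := sq_sum_le_card_mul_sum_sq (s := Finset.Icc 1 n) (f := fun k => ‖fcK f k‖)
      simpa using this
    have h2 : ∑ k ∈ Finset.Icc 1 n, ‖fcK f k‖ ^ 2 ≤ C * (n : ℝ) ^ (2 * A + 2) := by
      refine le_trans (Finset.sum_le_sum_of_subset_of_nonneg ?_ fun _ _ _ => by positivity) (hC n hn)
      intro k hk
      rw [Finset.mem_Icc] at hk
      rw [Finset.mem_range]
      omega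
    have h3 : (Real.sqrt C * (n : ℝ) ^ ((A : ℝ) + 3 / 2)) ^ 2 = n * (C * (n : ℝ) ^ (2 * A + 2)) := by
      rw [mul_pow, Real.sq_sqrt hC0, ← Real.rpow_natCast, ← Real.rpow_mul hn'.le]
      have e : ((A : ℝ) + 3 / 2) * ((2 : ℕ) : ℝ) = ((2 * A + 2 + 1 : ℕ) : ℝ) := by push_cast; ring
      rw [e, Real.rpow_natCast, pow_succ]
      ring
    have h4 : (∑ k ∈ Finset.Icc 1 n, ‖fcK f k‖) ^ 2 ≤
        (Real.sqrt C * (n : ℝ) ^ ((A : ℝ) + 3 / 2)) ^ 2 := by
      rw [h3]
      exact h1.trans (mul_le_mul_of_nonneg_left h2 hn'.le)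
    exact le_of_sq_le_sq h4 (by positivity)
  have hA' : (1 : ℝ) ≤ A := by exact_mod_cast hA
  have hs := LSeriesSummable_of_sum_norm_bigO (f := fun m => fcK f m) (s := ((2 * A + 1 : ℕ) : ℂ))
    hO (by positivity) (by
      rw [Complex.natCast_re]
      push_cast
      linarith)
  have h1 := hs.norm
  refine h1.congr fun m => ?_
  rcases Nat.eq_zero_or_pos m with rfl | hm
  · simp [LSeries.term]
  · rw [LSeries.term_of_ne_zero hm.ne', norm_div, Complex.cpow_natCast, norm_pow,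
      Complex.norm_natCast]

end Pool.Agent.Helper60.TLN
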